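import Pool.Agent.T9h98.EP.Defs

/-!
# Project EP, piece (GRP): the parabolic subgroups
-/

set_option autoImplicit false

open Set
open scoped RealInnerProductSpace

namespace Pool.Agent.T9h22.EP

open Pool.Agent.T9h98.DC
open Pool.Agent.T9h98.EP

variable {d : ℕ} (D : RD d)

theorem s_s (i : Fin d) (v : E d) : D.s i (D.s i v) = v := by
  rw [RD.s_apply, RD.s_apply]
  exact D.refl_aux i v

theorem wprop (T : Finset (Fin d)) (g : E d ≃ₗᵢ[ℝ] E d) (hg : g ∈ D.W T) :
    (∀ v, v ∈ D.V ↔ g v ∈ D.V) ∧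
      ∀ v, g v - v ∈ Submodule.span ℝ (D.α '' (T : Set (Fin d))) := by
  refine Subgroup.closure_induction (p := fun (g : E d ≃ₗᵢ[ℝ] E d) _ => (∀ v, v ∈ D.V ↔ g v ∈ D.V) ∧
      ∀ v, g v - v ∈ Submodule.span ℝ (D.α '' (T : Set (Fin d)))) ?_ ?_ ?_ ?_ hg
  · rintro _ ⟨i, hi, rfl⟩
    refine ⟨fun v => ⟨fun hv => ?_, fun hv => ?_⟩, fun v => ?_⟩
    · rw [RD.s_apply]
      exact D.refl i v hv
    · have h1 := D.refl i _ hv
      rw [← RD.s_apply, s_s] at h1
      exact h1
    · rw [RD.s_apply, sub_sub_cancel_left]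
      exact Submodule.neg_mem _ (Submodule.smul_mem _ _ (Submodule.subset_span ⟨i, hi, rfl⟩))
  · exact ⟨fun v => Iff.rfl, fun v => by
      show v - v ∈ _
      rw [sub_self]
      exact Submodule.zero_mem _⟩
  · rintro g h _ _ ⟨hg1, hg2⟩ ⟨hh1, hh2⟩
    refine ⟨fun v => (hh1 v).trans (hg1 (h v)), fun v => ?_⟩
    show g (h v) - v ∈ _
    have h1 := Submodule.add_mem _ (hg2 (h v)) (hh2 v)
    rwa [sub_add_sub_cancel] at h1
  · rintro g _ ⟨hg1, hg2⟩
    refine ⟨fun v => ?_, fun v => ?_⟩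
    · have h1 := hg1 (g⁻¹ v)
      have h2 : g (g⁻¹ v) = v := g.apply_symm_apply v
      rw [h2] at h1
      exact h1.symm
    · have h1 := hg2 (g⁻¹ v)
      have h2 : g (g⁻¹ v) = v := g.apply_symm_apply v
      rw [h2] at h1
      have h3 := Submodule.neg_mem _ h1
      rwa [neg_sub] at h3

theorem vt_iff (T U : Finset (Fin d)) (hTU : T ⊆ U) (g : E d ≃ₗᵢ[ℝ] E d) (hg : g ∈ D.W T)
    (v : E d) : v ∈ D.VT U ↔ g v ∈ D.VT U := by
  obtain ⟨h1, h2⟩ := wprop D T g hg
  have h3 : g v - v ∈ Submodule.span ℝ (D.α '' (U : Set (Fin d))) :=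
    Submodule.span_mono (Set.image_mono (Finset.coe_subset.2 hTU)) (h2 v)
  show (v ∈ D.V ∧ _) ↔ (g v ∈ D.V ∧ _)
  rw [← h1 v]
  refine and_congr_right fun _ => ⟨fun h => ?_, fun h => ?_⟩
  · have h4 := Submodule.sub_mem _ h h3
    have h5 : D.ω - v - (g v - v) = D.ω - g v := by abel
    rwa [h5] at h4
  · have h4 := Submodule.add_mem _ h h3
    have h5 : D.ω - g v + (g v - v) = D.ω - v := by abel
    rwa [h5] at h4

theorem image_eq (g : E d ≃ₗᵢ[ℝ] E d) (S : Set (E d)) (h : ∀ v, v ∈ S ↔ g v ∈ S) :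
    g '' S = S := by
  ext v
  constructor
  · rintro ⟨w, hw, rfl⟩
    exact (h w).1 hw
  · intro hv
    refine ⟨g.symm v, ?_, g.apply_symm_apply v⟩
    rw [h, g.apply_symm_apply]
    exact hv

theorem fin_W (hspan : Submodule.span ℝ D.V = ⊤) (T : Finset (Fin d)) : Finite (D.W T) := by
  haveI : Finite D.V := D.fin
  let f : D.W T → (D.V → D.V) := fun g v => ⟨(g : E d ≃ₗᵢ[ℝ] E d) v, ((wprop D T g g.2).1 v).1 v.2⟩
  apply Finite.of_injective f
  intro g h hgh
  apply Subtype.ext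
  apply LinearIsometryEquiv.toLinearEquiv_injective
  apply LinearEquiv.toLinearMap_injective
  apply LinearMap.ext_on hspan
  intro v hv
  have h1 := congrFun hgh ⟨v, hv⟩
  exact congrArg Subtype.val h1

/-- `T°` -/
def core (T : Finset (Fin d)) : Finset (Fin d) := T.filter fun i => RD.anc i ⊆ T

theorem mem_anc {i j : Fin d} : j ∈ RD.anc i ↔ j < i ∧ (j : ℕ) ≠ 3 := by
  unfold RD.anc
  rw [Finset.mem_filter]
  simp

theorem conn_core (T : Finset (Fin d)) : RD.Conn (T.filter fun i => RD.anc i ⊆ T) := by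
  intro i hi j hj
  rw [Finset.mem_filter] at hi ⊢
  rw [mem_anc] at hj
  refine ⟨hi.2 (mem_anc.2 hj), fun k hk => hi.2 ?_⟩
  rw [mem_anc] at hk ⊢
  exact ⟨hk.1.trans hj.1, hk.2⟩

/-- nodes of `T` outside of the core are orthogonal to it -/
theorem orth (T : Finset (Fin d)) (i : Fin d) (hi : i ∈ T) (hi' : ¬ RD.anc i ⊆ T) :
    ⟪D.ω, D.α i⟫ = 0 ∧ ∀ j ∈ T.filter (fun i => RD.anc i ⊆ T), ⟪D.α i, D.α j⟫ = 0 := by
  constructor
  · rw [D.ring i, if_neg]
    intro h0
    apply hi'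
    intro j hj
    rw [mem_anc] at hj
    have := hj.1
    rw [Fin.lt_def] at this
    omega
  · intro j hj
    rw [Finset.mem_filter] at hj
    rcases lt_trichotomy j i with h | h | h
    · rw [D.adj i j h, if_neg]
      intro hcase
      apply hi'
      intro m hm
      rw [mem_anc] at hm
      by_cases hmj : m = j
      · rw [hmj]; exact hj.1
      · apply hj.2
        rw [mem_anc]
        refine ⟨?_, hm.2⟩
        have h1 := hm.1
        rw [Fin.lt_def] at h1 ⊢
        have h2 : (m : ℕ) ≠ j := fun h => hmj (Fin.ext h)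
        have h3 := hm.2
        omega
    · rw [h] at hj
      exact absurd hj.2 hi'
    · exfalso
      apply hi'
      intro m hm
      apply hj.2
      rw [mem_anc] at hm ⊢
      exact ⟨hm.1.trans h, hm.2⟩

theorem core_iff (T : Finset (Fin d)) (g : E d ≃ₗᵢ[ℝ] E d) (hg : g ∈ D.W T) (x : E d) :
    D.ω - x ∈ Submodule.span ℝ (D.α '' ((T.filter fun i => RD.anc i ⊆ T : Finset (Fin d)) :
      Set (Fin d))) ↔
    D.ω - g x ∈ Submodule.span ℝ (D.α '' ((T.filter fun i => RD.anc i ⊆ T : Finset (Fin d)) :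
      Set (Fin d))) := by
  set S := Submodule.span ℝ (D.α '' ((T.filter fun i => RD.anc i ⊆ T : Finset (Fin d)) :
      Set (Fin d))) with hS
  revert x
  refine Subgroup.closure_induction (p := fun (g : E d ≃ₗᵢ[ℝ] E d) _ =>
    ∀ x, D.ω - x ∈ S ↔ D.ω - g x ∈ S) ?_ ?_ ?_ ?_ hg
  · rintro _ ⟨i, hi, rfl⟩
    by_cases hi' : RD.anc i ⊆ T
    · intro x
      have h3 : D.s i x - x ∈ S := by
        rw [RD.s_apply, sub_sub_cancel_left]
        refine Submodule.neg_mem _ (Submodule.smul_mem _ _ (Submodule.subset_span ⟨i, ?_, rfl⟩))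
        rw [Finset.mem_coe, Finset.mem_filter]
        exact ⟨hi, hi'⟩
      constructor
      · intro h
        have h4 := Submodule.sub_mem _ h h3
        have h5 : D.ω - x - (D.s i x - x) = D.ω - D.s i x := by abel
        rwa [h5] at h4
      · intro h
        have h4 := Submodule.add_mem _ h h3
        have h5 : D.ω - D.s i x + (D.s i x - x) = D.ω - x := by abel
        rwa [h5] at h4
    · obtain ⟨h0, h1⟩ := orth D T i hi hi'
      have h2 : ∀ w ∈ S, ⟪w, D.α i⟫ = 0 := by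
        intro w hw
        rw [hS] at hw
        induction hw using Submodule.span_induction with
        | mem w hw =>
          obtain ⟨j, hj, rfl⟩ := hw
          rw [real_inner_comm]
          exact h1 j hj
        | zero => exact inner_zero_left _
        | add x y _ _ hx hy => rw [inner_add_left, hx, hy, add_zero]
        | smul a x _ hx => rw [real_inner_smul_left, hx, mul_zero]
      have h3 : ∀ x, D.ω - x ∈ S → D.s i x = x := by
        intro x hx
        have h4 := h2 _ hx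
        rw [inner_sub_left, h0, zero_sub, neg_eq_zero] at h4
        rw [RD.s_apply, h4, zero_div, zero_smul, sub_zero]
      intro x
      constructor
      · intro h
        rw [h3 x h]
        exact h
      · intro h
        have h4 := h3 _ h
        rw [s_s] at h4
        rw [h4]
        exact h
  · exact fun x => Iff.rfl
  · rintro g h _ _ hg hh x
    exact (hh x).trans (hg (h x))
  · rintro g _ hg x
    have h1 := hg (g⁻¹ x)
    have h2 : g (g⁻¹ x) = x := g.apply_symm_apply x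
    rw [h2] at h1
    exact h1.symm

theorem grp : S_GRP := by
  intro hSP hCO d D
  obtain ⟨hdual, _, _, hspan⟩ := hSP d D
  obtain ⟨_, hcone, _⟩ := hCO hSP d D
  obtain ⟨ρ, hρ⟩ := hdual fun _ => 1
  have P2 : ∀ T, ∀ a : E d, ∃ g ∈ D.W T, ∀ i ∈ T, 0 ≤ ⟪g a, D.α i⟫ := by
    intro T a
    haveI := fin_W D hspan T
    obtain ⟨g, hg⟩ := Finite.exists_max fun g : D.W T => ⟪(g : E d ≃ₗᵢ[ℝ] E d) a, ρ⟫
    refine ⟨g, g.2, fun i hi => ?_⟩
    by_contra hcon
    push Not at hcon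
    have hs : D.s i ∈ D.W T := Subgroup.subset_closure ⟨i, hi, rfl⟩
    have h1 := hg (⟨D.s i, hs⟩ * g)
    have h2 : (((⟨D.s i, hs⟩ * g : D.W T) : E d ≃ₗᵢ[ℝ] E d)) a =
      D.s i ((g : E d ≃ₗᵢ[ℝ] E d) a) := rfl
    rw [h2, RD.s_apply, inner_sub_left, real_inner_smul_left, hρ i, mul_one] at h1
    have h3 : ⟪(g : E d ≃ₗᵢ[ℝ] E d) a, D.α i⟫ / D.c < 0 := div_neg_of_neg_of_pos hcon D.cpos
    linarith
  have P3 : ∀ T, ∀ v ∈ D.VT T, ∃ g ∈ D.W T, g v = D.ω := by
    intro T v hv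
    obtain ⟨g, hg, h1⟩ := P2 T v
    exact ⟨g, hg, hcone T (g v) ((vt_iff D T T (Finset.Subset.refl T) g hg v).1 hv) h1⟩
  refine ⟨fun T g hg => ⟨image_eq g _ (wprop D T g hg).1, fun U hTU =>
    image_eq g _ (vt_iff D T U hTU g hg)⟩, P2, P3, fun T => ⟨conn_core T, ?_⟩⟩
  ext v
  constructor
  · intro hv
    obtain ⟨g, hg, h1⟩ := P3 T v hv
    refine ⟨hv.1, ?_⟩
    rw [core_iff D T g hg v, h1, sub_self]
    exact Submodule.zero_mem _
  · intro hv
    refine ⟨hv.1, Submodule.span_mono (Set.image_mono ?_) hv.2⟩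
    exact Finset.coe_subset.2 (Finset.filter_subset _ _)

end Pool.Agent.T9h22.EP
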